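import Pool.Agent.H27.RatLoc

set_option autoImplicit false

namespace Pool.Agent.Results.MP_a437dc_al.NotFlat

open Pool.Agent.H27.RatLoc

/-- `L` is the rationalization functor, and it is not conditionally flat. -/
theorem result :
    (∀ (G : Type) [Group G], IsRationalization (eta G)) ∧
    (∀ (G H : Type) [Group G] [Group H] (f : G →* H), (Lmap f).comp (eta G) = (eta H).comp f) ∧
    ∃ (N E G H : Type) (_ : Group N) (_ : Group E) (_ : Group G) (_ : Group H)
      (i : N →* E) (π : E →* G) (h : IsExt i π) (α : H →* G),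
      IsExt (Lmap i) (Lmap π) ∧ ¬ IsExt (Lmap (pbIn h α)) (Lmap (pbOut π α)) :=
  ⟨fun G _ => isRat G, fun _ _ _ _ _ => MonoidHom.ext fun _ => rfl,
    _, _, _, _, _, _, _, _, _, _, extE 1, alpha,
    flat_of_loc (extE 1) (mult_loc ℂ) (E_loc (by simp)) (mult_loc ℚ), not_flat⟩

end Pool.Agent.Results.MP_a437dc_al.NotFlat
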